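import Pool.Agent.Helper57.NX.Defs3

/-! Project NX (helper57), NX-29: the induction, from the other modules as hypotheses. -/

set_option autoImplicit false

open Finset
open scoped BigOperators ComplexConjugate

namespace Pool.Agent.Helper57.NX

noncomputable section

private theorem h40_e_zero : e 0 = 1 := by
  simp [e]

/-- shifting the interval of summation -/
private theorem h40_shift (h : ℕ → ℂ) (hh : ∀ k, ‖h k‖ ≤ 1) (u T j : ℕ) :
    ‖𝔼 k ∈ Ico u (u + T), h (k + j) - 𝔼 k ∈ Ico u (u + T), h k‖ ≤ 2 * j / T := by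
  induction j with
  | zero => simp
  | succ j ih =>
    have h1 : ‖𝔼 k ∈ Ico u (u + T), h (k + (j + 1)) - 𝔼 k ∈ Ico u (u + T), h (k + j)‖ ≤ 2 / T := by
      rw [Finset.expect_eq_sum_div_card, Finset.expect_eq_sum_div_card, ← sub_div, norm_div]
      have hc : ((Ico u (u + T)).card : ℂ) = (T : ℂ) := by simp
      rw [hc, Complex.norm_natCast]
      apply div_le_div_of_nonneg_right _ (Nat.cast_nonneg T)
      rw [← Finset.sum_sub_distrib]
      have h2 := Finset.sum_Ico_eq_sum_range (fun k => h (k + (j + 1)) - h (k + j)) u (u + T)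
      rw [h2, Nat.add_sub_cancel_left]
      have h3 : ∑ k ∈ range T, (h (u + k + (j + 1)) - h (u + k + j)) =
          h (u + T + j) - h (u + j) := by
        have := Finset.sum_range_sub (fun k => h (u + k + j)) T
        simp only [add_zero] at this
        rw [← this]
        apply Finset.sum_congr rfl
        intro k _
        congr 2
        ring
      rw [h3]
      calc ‖h (u + T + j) - h (u + j)‖ ≤ ‖h (u + T + j)‖ + ‖h (u + j)‖ := norm_sub_le _ _
        _ ≤ 2 := by linarith [hh (u + T + j), hh (u + j)]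
    calc ‖𝔼 k ∈ Ico u (u + T), h (k + (j + 1)) - 𝔼 k ∈ Ico u (u + T), h k‖
        = ‖(𝔼 k ∈ Ico u (u + T), h (k + (j + 1)) - 𝔼 k ∈ Ico u (u + T), h (k + j)) +
          (𝔼 k ∈ Ico u (u + T), h (k + j) - 𝔼 k ∈ Ico u (u + T), h k)‖ := by congr 1; ring
      _ ≤ 2 / T + 2 * j / T := (norm_add_le _ _).trans (add_le_add h1 ih)
      _ = 2 * ((j + 1 : ℕ) : ℝ) / T := by push_cast; ring

private theorem h40_avg (h : ℕ → ℂ) (hh : ∀ k, ‖h k‖ ≤ 1) (u T K : ℕ) (hT : 0 < T) (hK : 0 < K) :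
    ‖𝔼 k ∈ Ico u (u + T), h k‖ ≤
      (𝔼 k ∈ Ico u (u + T), ‖𝔼 j ∈ range K, h (k + j)‖) + 2 * K / T := by
  have h1 : ‖𝔼 j ∈ range K, (𝔼 k ∈ Ico u (u + T), h (k + j) - 𝔼 k ∈ Ico u (u + T), h k)‖ ≤
      2 * K / T := by
    refine (RCLike.norm_expect_le (K := ℂ)).trans ?_
    refine (Finset.expect_le_expect (g := fun _ => (2 * K / T : ℝ)) fun j hj => ?_).trans ?_
    · refine (h40_shift h hh u T j).trans ?_
      have : (j : ℝ) ≤ K := by exact_mod_cast (Finset.mem_range.1 hj).le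
      gcongr
    · rw [Finset.expect_const (by simpa using hK.ne')]
  rw [Finset.expect_sub_distrib, Finset.expect_const (by simpa using hK.ne')] at h1
  have h2 : 𝔼 j ∈ range K, 𝔼 k ∈ Ico u (u + T), h (k + j) =
      𝔼 k ∈ Ico u (u + T), 𝔼 j ∈ range K, h (k + j) := Finset.expect_comm _ _ _
  rw [h2] at h1
  have h3 : ‖𝔼 k ∈ Ico u (u + T), 𝔼 j ∈ range K, h (k + j)‖ ≤
      𝔼 k ∈ Ico u (u + T), ‖𝔼 j ∈ range K, h (k + j)‖ := RCLike.norm_expect_le (K := ℂ)
  have h4 := norm_sub_norm_le (𝔼 k ∈ Ico u (u + T), h k)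
    (𝔼 k ∈ Ico u (u + T), 𝔼 j ∈ range K, h (k + j))
  rw [norm_sub_rev] at h4
  linarith

private theorem h40_DP_zero (c : Fin 0 → ℝ) (ε : ℝ) (hε : 0 < ε) : DP 0 c ε := by
  refine ⟨ε / 2, by positivity, 2, ε / 4, by positivity, (4 : ℝ) ^ (4 / ε), ?_⟩
  intro S N _ hD hG δ hδ hδ1 h f0 f hh hf0 hf hform
  refine ⟨fun _ => 0, fun i => i.elim0, fun K hK1 hK2 => ?_⟩
  have h4 : (1 : ℝ) ≤ (4 : ℝ) ^ (4 / ε) := Real.one_le_rpow (by norm_num) (by positivity)
  have hD1 : 1 ≤ S.D := h4.trans hD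
  have hD0 : 0 < S.D := by linarith
  have hT : (S.D : ℝ) ^ (1 - ε / 2) ≤ S.T := hG.T1
  have hTpos : (0 : ℝ) < S.T := (Real.rpow_pos_of_pos hD0 _).trans_le hT
  have hTn : 0 < S.T := by exact_mod_cast hTpos
  have hδ0 : 0 < δ := (Real.rpow_pos_of_pos hD0 _).trans_le hδ
  have hN : (0 : ℝ) < N := by exact_mod_cast Nat.pos_of_ne_zero (NeZero.ne N)
  -- the form
  have h5 : ‖form S c h f0 f‖ ≤ ‖𝔼 k ∈ Ico S.u (S.u + S.T), h k‖ := by
    unfold form
    have e1 : 𝔼 k ∈ S.I, h k * 𝔼 x : ZMod N, f0 x * ∏ i, f i (x + (S.a c i k : ZMod N)) =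
        (𝔼 k ∈ Ico S.u (S.u + S.T), h k) * 𝔼 x : ZMod N, f0 x := by
      rw [Finset.expect_mul]
      unfold Sys.I
      simp
    rw [e1, norm_mul]
    have h6 : ‖𝔼 x : ZMod N, f0 x‖ ≤ 1 := by
      refine (RCLike.norm_expect_le (K := ℂ)).trans ?_
      refine (Finset.expect_le_expect (g := fun _ => (1 : ℝ)) fun x _ => hf0.bdd x).trans ?_
      rw [Finset.expect_const Finset.univ_nonempty]
    calc _ ≤ ‖𝔼 k ∈ Ico S.u (S.u + S.T), h k‖ * 1 :=
          mul_le_mul_of_nonneg_left h6 (norm_nonneg _)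
      _ = _ := mul_one _
  have h7 := h40_avg h hh S.u S.T K hTn hK1
  have h8 : (𝔼 k ∈ S.I, ‖𝔼 j ∈ range K, h (k + j) *
      e (∑ i : Fin 0, (fun _ => (0 : ℝ)) i * S.P i * (S.t (k + j)) ^ (c i))‖) =
      𝔼 k ∈ Ico S.u (S.u + S.T), ‖𝔼 j ∈ range K, h (k + j)‖ := by
    unfold Sys.I
    simp [h40_e_zero]
  rw [h8]
  have h9 : (K : ℝ) / S.T ≤ S.D ^ (-(ε / 2)) := by
    rw [div_le_iff₀ hTpos]
    calc (K : ℝ) ≤ S.D ^ (1 - ε) := hK2
      _ = S.D ^ (-(ε / 2)) * S.D ^ (1 - ε / 2) := by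
        rw [← Real.rpow_add hD0]
        congr 1
        ring
      _ ≤ _ := mul_le_mul_of_nonneg_left hT (Real.rpow_nonneg hD0.le _)
  have h10 : 4 * S.D ^ (-(ε / 2)) ≤ δ := by
    refine le_trans ?_ hδ
    have h11 : S.D ^ (-(ε / 2)) = S.D ^ (-(ε / 4)) * S.D ^ (-(ε / 4)) := by
      rw [← Real.rpow_add hD0]
      congr 1
      ring
    have h12 : S.D ^ (-(ε / 4)) ≤ 1 / 4 := by
      rw [Real.rpow_neg hD0.le, inv_le_comm₀ (Real.rpow_pos_of_pos hD0 _) (by norm_num)]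
      calc (1 / 4 : ℝ)⁻¹ = 4 := by norm_num
        _ = ((4 : ℝ) ^ (4 / ε)) ^ (ε / 4) := by
          rw [← Real.rpow_mul (by norm_num)]
          have : 4 / ε * (ε / 4) = 1 := by field_simp
          rw [this, Real.rpow_one]
        _ ≤ _ := Real.rpow_le_rpow (by positivity) hD (by positivity)
    have h13 : 0 < S.D ^ (-(ε / 4)) := Real.rpow_pos_of_pos hD0 _
    rw [h11]
    nlinarith
  have h14 : 2 * (K : ℝ) / S.T ≤ δ / 2 := by
    have : 2 * (K : ℝ) / S.T = 2 * (K / S.T) := by ring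
    rw [this]
    linarith
  have h15 : δ / 2 ≤ 𝔼 k ∈ Ico S.u (S.u + S.T), ‖𝔼 j ∈ range K, h (k + j)‖ := by linarith
  refine le_trans ?_ h15
  nlinarith

/-- the induction, from the other modules as hypotheses -/
theorem main_induction_of
    (hbase : ∀ (m : ℕ) (c : Fin (m + 1) → ℝ), StrictMono c → (∀ i, 0 < c i) →
      (∀ i (n : ℕ), c i ≠ n) → (∀ ε : ℝ, 0 < ε → DP m (fun i => c i.castSucc) ε) →
      ∃ sb : ℝ, 0 < sb ∧ sb < c (Fin.last m) ∧ ∀ ε : ℝ, 0 < ε → TopP m c sb ε)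
    (hgnc : ∀ (m : ℕ) (c : Fin (m + 1) → ℝ), StrictMono c → (∀ i, 0 < c i) →
      (∀ i (n : ℕ), c i ≠ n) → ∀ εb : ℝ, 0 < εb →
      ∃ g0 : ℝ, 0 < g0 ∧ ∀ s : ℝ, 0 ≤ s → s ≤ c (Fin.last m) - εb → ∀ s' : ℝ, s' ≤ s + g0 →
        GNCP m c s s')
    (hus : ∀ (m : ℕ) (c : Fin (m + 1) → ℝ), StrictMono c → (∀ i, 0 < c i) → ∀ s : ℝ, 0 ≤ s →
      (∀ ε : ℝ, 0 < ε → UP m (fun i => c i.castSucc) ε) →
      (∀ ε : ℝ, 0 < ε → TopP m c s ε) → ∀ ε : ℝ, 0 < ε → UsP m c s ε)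
    (hds : ∀ (m : ℕ) (c : Fin (m + 1) → ℝ), (∀ i, 0 < c i) → ∀ s : ℝ, 0 ≤ s →
      s < c (Fin.last m) → (∀ ε : ℝ, 0 < ε → UsP m c s ε) → ∀ ε : ℝ, 0 < ε → DsP m c s ε)
    (hlpp : ∀ (m : ℕ) (c : Fin (m + 1) → ℝ), StrictMono c → (∀ i, 0 < c i) →
      (∀ i (n : ℕ), c i ≠ n) → ∀ s : ℝ, 0 ≤ s → s < c (Fin.last m) →
      (∀ ε : ℝ, 0 < ε → TopP m c s ε) → (∀ ε : ℝ, 0 < ε → DsP m c s ε) → LPP m c s)
    (htop : ∀ (m : ℕ) (c : Fin (m + 1) → ℝ), StrictMono c → (∀ i, 0 < c i) →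
      ∀ s s' ε : ℝ, 0 ≤ s → s < s' → s' < c (Fin.last m) → 0 < ε →
      GNCP m c s s' → LPP m c s' → TopP m c s' ε → TopP m c s ε)
    (m : ℕ) (c : Fin m → ℝ) (hc : StrictMono c)
    (hc0 : ∀ i, 0 < c i) (hcn : ∀ i (n : ℕ), c i ≠ n) :
    (∀ ε : ℝ, 0 < ε → UP m c ε) ∧ (∀ ε : ℝ, 0 < ε → DP m c ε) := by
  induction m with
  | zero =>
    refine ⟨fun ε hε => ?_, fun ε hε => h40_DP_zero c ε hε⟩
    exact ⟨1, one_pos, 0, 1, one_pos, 0, fun S N _ _ _ δ _ _ f0 f _ _ _ i => i.elim0⟩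
  | succ m ih =>
    have hcs : StrictMono (fun i : Fin m => c i.castSucc) :=
      fun i j hij => hc (Fin.castSucc_lt_castSucc_iff.2 hij)
    obtain ⟨ihU, ihD⟩ := ih (fun i => c i.castSucc) hcs (fun i => hc0 _) (fun i n => hcn _ n)
    obtain ⟨sb, hsb0, hsb1, hT0⟩ := hbase m c hc hc0 hcn ihD
    obtain ⟨g0, hg0, hG⟩ := hgnc m c hc hc0 hcn (c (Fin.last m) - sb) (by linarith)
    have claim : ∀ j : ℕ, ∀ ε : ℝ, 0 < ε → TopP m c (max (sb - j * g0) 0) ε := by
      intro j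
      induction j with
      | zero =>
        intro ε hε
        have : max (sb - ((0 : ℕ) : ℝ) * g0) 0 = sb := by
          rw [Nat.cast_zero, zero_mul, sub_zero]
          exact max_eq_left hsb0.le
        rw [this]
        exact hT0 ε hε
      | succ j ihj =>
        intro ε hε
        have hj0 : (0 : ℝ) ≤ j * g0 := by positivity
        rcases le_or_gt (sb - j * g0) 0 with hle | hlt
        · have e1 : max (sb - (j : ℝ) * g0) 0 = 0 := max_eq_right hle
          have e2 : max (sb - ((j + 1 : ℕ) : ℝ) * g0) 0 = 0 := by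
            apply max_eq_right
            push_cast
            linarith
          rw [e2, ← e1]
          exact ihj ε hε
        · have e1 : max (sb - (j : ℝ) * g0) 0 = sb - j * g0 := max_eq_left hlt.le
          rw [e1] at ihj
          set s' : ℝ := sb - j * g0 with hs'
          set s : ℝ := max (sb - ((j + 1 : ℕ) : ℝ) * g0) 0 with hs
          have hs1 : s = max (s' - g0) 0 := by
            rw [hs, hs']
            congr 1
            push_cast
            ring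
          have hs0 : 0 ≤ s := le_max_right _ _
          have hss : s < s' := by
            rw [hs1]
            exact max_lt (by linarith) hlt
          have hsl : s' < c (Fin.last m) := by linarith
          have hU' := hus m c hc hc0 s' hlt.le ihU ihj
          have hD' := hds m c hc0 s' hlt.le hsl hU'
          have hL' := hlpp m c hc hc0 hcn s' hlt.le hsl ihj hD'
          refine htop m c hc hc0 s s' ε hs0 hss hsl hε ?_ hL' (ihj ε hε)
          refine hG s hs0 (by linarith) s' ?_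
          rw [hs1]
          linarith [le_max_left (s' - g0) 0]
    obtain ⟨j, hj⟩ := exists_nat_ge (sb / g0)
    have hTop : ∀ ε : ℝ, 0 < ε → TopP m c 0 ε := by
      intro ε hε
      have h1 := claim j ε hε
      have : max (sb - (j : ℝ) * g0) 0 = 0 := by
        apply max_eq_right
        rw [div_le_iff₀ hg0] at hj
        linarith
      rwa [this] at h1
    have hUs := hus m c hc hc0 0 le_rfl ihU hTop
    have hDs := hds m c hc0 0 le_rfl (hc0 _) hUs
    refine ⟨fun ε hε => ?_, fun ε hε => ?_⟩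
    · obtain ⟨x0, hx0, C, σ, hσ, D0, h1⟩ := hUs ε hε
      refine ⟨x0, hx0, C, σ, hσ, max D0 1, ?_⟩
      intro S N _ hD hGood δ hδ hδ1 f0 f hf0 hf hform
      have hD1 : 1 ≤ S.D := (le_max_right _ _).trans hD
      refine h1 S N ((le_max_left _ _).trans hD) hGood δ hδ hδ1 (S.Q : ℝ) le_rfl ?_ f0 f hf0 hf
        (hf _) hform
      calc (S.Q : ℝ) * S.D ^ (0 - σ) ≤ S.Q * 1 := by
            apply mul_le_mul_of_nonneg_left _ (Nat.cast_nonneg _)
            exact Real.rpow_le_one_of_one_le_of_nonpos hD1 (by linarith)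
        _ = _ := mul_one _
    · obtain ⟨x0, hx0, C, σ, hσ, D0, h1⟩ := hDs ε hε
      refine ⟨x0, hx0, C, σ, hσ, max D0 1, ?_⟩
      intro S N _ hD hGood δ hδ hδ1 h f0 f hh hf0 hf hform
      have hD1 : 1 ≤ S.D := (le_max_right _ _).trans hD
      obtain ⟨θ, hθ1, -, hθ3⟩ := h1 S N ((le_max_left _ _).trans hD) hGood δ hδ hδ1 (S.Q : ℝ)
        le_rfl (by
          calc (S.Q : ℝ) * S.D ^ (0 - σ) ≤ S.Q * 1 := by
                apply mul_le_mul_of_nonneg_left _ (Nat.cast_nonneg _)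
                exact Real.rpow_le_one_of_one_le_of_nonpos hD1 (by linarith)
            _ = _ := mul_one _) (by rw [Real.rpow_zero, mul_one]) h f0 f hh hf0 hf (hf _) hform
      exact ⟨θ, hθ1, hθ3⟩

end

end Pool.Agent.Helper57.NX
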